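import Mathlib

/-!
# Plane point-line incidence structures and generic independence: definitions
-/

namespace Pool.Agent.H657R2.Inc

/-- An incidence structure, listed explicitly: the list `V` of (the labels of) the points, the list
`F` of (the labels of) the lines and the list `I` of the incidences. -/
abbrev IncStr : Type := List ℕ × List ℕ × List (ℕ × ℕ)

/-- The three lists have no repetitions, and every incidence is a pair consisting of a point and a
line of the structure. -/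
def IsStr (S : IncStr) : Prop :=
  S.1.Nodup ∧ S.2.1.Nodup ∧ S.2.2.Nodup ∧ ∀ e ∈ S.2.2, e.1 ∈ S.1 ∧ e.2 ∈ S.2.1

/-- Positions of the points, `p i = (xᵢ, yᵢ)`, and of the lines, `P j = (Aʲ, Cʲ)` standing for the
non-vertical line `Aʲ x + y + Cʲ = 0`, form a realization of the structure: each incidence
holds. -/
def Realizes (S : IncStr) (p P : ℕ → ℝ × ℝ) : Prop :=
  ∀ e ∈ S.2.2, (P e.2).1 * (p e.1).1 + (p e.1).2 + (P e.2).2 = 0

/-- All points lie on one line. -/
def Collinear (S : IncStr) (p : ℕ → ℝ × ℝ) : Prop :=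
  ∃ a b c : ℝ, (a ≠ 0 ∨ b ≠ 0) ∧ ∀ i ∈ S.1, a * (p i).1 + b * (p i).2 + c = 0

/-- All lines pass through one point. -/
def Concurrent (S : IncStr) (P : ℕ → ℝ × ℝ) : Prop :=
  ∃ u v : ℝ, ∀ j ∈ S.2.1, (P j).1 * u + v + (P j).2 = 0

/-- The coefficient matrix `J_S(p, P)`, with one row for each incidence `(i, j)`, namely the
coefficients of `Aʲ uᵢ + Uʲ xᵢ + wᵢ + Wʲ`, and columns for the unknowns `uᵢ`, `wᵢ`
(`i ∈ V`), `Uʲ`, `Wʲ` (`j ∈ F`), in this order. -/
def J (S : IncStr) (p P : ℕ → ℝ × ℝ) : Matrix {e : ℕ × ℕ // e ∈ S.2.2}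
    (({i : ℕ // i ∈ S.1} ⊕ {i : ℕ // i ∈ S.1}) ⊕
      ({j : ℕ // j ∈ S.2.1} ⊕ {j : ℕ // j ∈ S.2.1})) ℝ :=
  fun e c => match c with
    | Sum.inl (Sum.inl i) => if i.1 = e.1.1 then (P e.1.2).1 else 0
    | Sum.inl (Sum.inr i) => if i.1 = e.1.1 then 1 else 0
    | Sum.inr (Sum.inl j) => if j.1 = e.1.2 then (p e.1.1).1 else 0
    | Sum.inr (Sum.inr j) => if j.1 = e.1.2 then 1 else 0

/-- The structure is independent: at some non-degenerate realization the rows of the matrix
`J_S(p, P)` are linearly independent. -/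
def Independent (S : IncStr) : Prop :=
  ∃ p P : ℕ → ℝ × ℝ, Realizes S p P ∧ ¬ Collinear S p ∧ ¬ Concurrent S P ∧
    LinearIndependent ℝ (fun e => J S p P e)

end Pool.Agent.H657R2.Inc
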