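import Pool.Agent.H657R2.Inc.Stress

/-!
# Linear independence of the rows and stresses
-/

namespace Pool.Agent.H657R2.Inc

theorem li_iff {S : IncStr} (hS : IsStr S) (p P : ℕ → ℝ × ℝ) :
    LinearIndependent ℝ (fun e => J S p P e) ↔
      NoStress S.2.2.toFinset (fun i => (p i).1) (fun j => (P j).1) := by
  classical
  have : Fintype {e : ℕ × ℕ // e ∈ S.2.2} := Fintype.subtype S.2.2.toFinset (by simp)
  have hsum : ∀ f : ℕ × ℕ → ℝ, ∑ e ∈ S.2.2.toFinset, f e =
      ∑ e : {e : ℕ × ℕ // e ∈ S.2.2}, f e.1 := by
    intro f
    exact Finset.sum_subtype _ (by simp) f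
  rw [Fintype.linearIndependent_iff]
  constructor
  · intro h w h0 h1 h2 h3 h4
    have key := h (fun e => w e.1) ?_
    · intro e
      by_cases he : e ∈ S.2.2
      · exact key ⟨e, he⟩
      · exact h0 e (by simpa using he)
    · funext c
      rw [Finset.sum_apply]
      simp only [Pi.smul_apply, smul_eq_mul, Pi.zero_apply]
      rcases c with (i | i) | (j | j)
      · rw [← h2 i.1, hsum]
        refine Finset.sum_congr rfl fun e _ => ?_
        simp only [J, mul_ite, mul_zero, eq_comm]
      · rw [← h1 i.1, hsum]
        refine Finset.sum_congr rfl fun e _ => ?_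
        simp only [J, mul_ite, mul_zero, mul_one, eq_comm]
      · rw [← h4 j.1, hsum]
        refine Finset.sum_congr rfl fun e _ => ?_
        simp only [J, mul_ite, mul_zero, eq_comm]
      · rw [← h3 j.1, hsum]
        refine Finset.sum_congr rfl fun e _ => ?_
        simp only [J, mul_ite, mul_zero, mul_one, eq_comm]
  · intro h g hg
    let w : ℕ × ℕ → ℝ := fun e => if he : e ∈ S.2.2 then g ⟨e, he⟩ else 0
    have hw : ∀ e : {e : ℕ × ℕ // e ∈ S.2.2}, w e.1 = g e := by
      intro e
      simp only [w, dif_pos e.2]
    have hcol : ∀ c, ∑ e : {e : ℕ × ℕ // e ∈ S.2.2}, g e * J S p P e c = 0 := by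
      intro c
      have := congrFun hg c
      rw [Finset.sum_apply] at this
      simpa only [Pi.smul_apply, smul_eq_mul, Pi.zero_apply] using this
    have key := h w ?_ ?_ ?_ ?_ ?_
    · intro e
      rw [← hw e]
      exact key e.1
    · intro e he
      simp only [w]
      rw [dif_neg]
      simpa using he
    · intro i
      by_cases hi : i ∈ S.1
      · rw [hsum]
        refine Eq.trans ?_ (hcol (Sum.inl (Sum.inr ⟨i, hi⟩)))
        refine Finset.sum_congr rfl fun e _ => ?_
        simp only [J, mul_ite, mul_zero, mul_one, eq_comm, hw]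
      · refine Finset.sum_eq_zero fun e he => if_neg ?_
        rintro rfl
        exact hi (hS.2.2.2 e (by simpa using he)).1
    · intro i
      by_cases hi : i ∈ S.1
      · rw [hsum]
        refine Eq.trans ?_ (hcol (Sum.inl (Sum.inl ⟨i, hi⟩)))
        refine Finset.sum_congr rfl fun e _ => ?_
        simp only [J, mul_ite, mul_zero, eq_comm, hw]
      · refine Finset.sum_eq_zero fun e he => if_neg ?_
        rintro rfl
        exact hi (hS.2.2.2 e (by simpa using he)).1
    · intro j
      by_cases hj : j ∈ S.2.1
      · rw [hsum]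
        refine Eq.trans ?_ (hcol (Sum.inr (Sum.inr ⟨j, hj⟩)))
        refine Finset.sum_congr rfl fun e _ => ?_
        simp only [J, mul_ite, mul_zero, mul_one, eq_comm, hw]
      · refine Finset.sum_eq_zero fun e he => if_neg ?_
        rintro rfl
        exact hj (hS.2.2.2 e (by simpa using he)).2
    · intro j
      by_cases hj : j ∈ S.2.1
      · rw [hsum]
        refine Eq.trans ?_ (hcol (Sum.inr (Sum.inl ⟨j, hj⟩)))
        refine Finset.sum_congr rfl fun e _ => ?_
        simp only [J, mul_ite, mul_zero, eq_comm, hw]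
      · refine Finset.sum_eq_zero fun e he => if_neg ?_
        rintro rfl
        exact hj (hS.2.2.2 e (by simpa using he)).2

end Pool.Agent.H657R2.Inc
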