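import Pool.Agent.H657R2.Inc.Yes2
import Pool.Agent.H598R2.Naming

/-!
# The reduction and its correctness
-/

namespace Pool.Agent.H657R2.Inc

open Pool.Agent.NPC Pool.Agent.NPC.H598R2

/-- the points -/
noncomputable def V0 (φ : Fm) : List Pt := dd ((I0 φ).map Prod.fst ++ [.z 0, .z 1, .z 2])

/-- the lines -/
noncomputable def F0 (φ : Fm) : List Ln := dd ((I0 φ).map Prod.snd ++ [.zl 0, .zl 1])

/-- numbers of points and lines -/
noncomputable def nm (φ : Fm) (e : Pt × Ln) : ℕ × ℕ := (index (V0 φ) e.1, index (F0 φ) e.2)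

/-- the incidence structure of a formula -/
noncomputable def red (φ : Fm) : IncStr :=
  (List.range (V0 φ).length, List.range (F0 φ).length, dd ((I0 φ).map (nm φ)))

variable {φ : Fm}

theorem mem_V0 {e : Pt × Ln} (h : e ∈ I0 φ) : e.1 ∈ V0 φ :=
  mem_dd.2 (List.mem_append.2 (Or.inl (List.mem_map_of_mem h)))

theorem mem_F0 {e : Pt × Ln} (h : e ∈ I0 φ) : e.2 ∈ F0 φ :=
  mem_dd.2 (List.mem_append.2 (Or.inl (List.mem_map_of_mem h)))

theorem mem_V0z {i : ℕ} (h : i < 3) : Pt.z i ∈ V0 φ := by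
  refine mem_dd.2 (List.mem_append.2 (Or.inr ?_))
  interval_cases i <;> simp

theorem mem_F0z {i : ℕ} (h : i < 2) : Ln.zl i ∈ F0 φ := by
  refine mem_dd.2 (List.mem_append.2 (Or.inr ?_))
  interval_cases i <;> simp

theorem index_lt {α : Type} {l : List α} {v : α} (h : v ∈ l) : index l v < l.length :=
  (List.getElem?_eq_some_iff.1 (getElem?_index h)).1

theorem mem_red {e : ℕ × ℕ} : e ∈ (red φ).2.2 ↔ ∃ a ∈ I0 φ, nm φ a = e := by
  simp only [red, mem_dd, List.mem_map]

theorem red_isStr (φ : Fm) : IsStr (red φ) := by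
  refine ⟨List.nodup_range, List.nodup_range, nodup_dd _, ?_⟩
  intro e he
  obtain ⟨a, ha, rfl⟩ := mem_red.1 he
  exact ⟨List.mem_range.2 (index_lt (mem_V0 ha)), List.mem_range.2 (index_lt (mem_F0 ha))⟩

theorem nm_inj {a b : Pt × Ln} (ha : a ∈ I0 φ) (hb : b ∈ I0 φ) (h : nm φ a = nm φ b) : a = b := by
  simp only [nm, Prod.mk.injEq] at h
  exact Prod.ext (index_inj (mem_V0 ha) (mem_V0 hb) h.1) (index_inj (mem_F0 ha) (mem_F0 hb) h.2)

theorem red_image (φ : Fm) : (red φ).2.2.toFinset = (I0 φ).toFinset.image (nm φ) := by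
  ext e
  rw [List.mem_toFinset, mem_red, Finset.mem_image]
  simp only [List.mem_toFinset]

theorem sum_red (φ : Fm) (f : ℕ × ℕ → ℝ) :
    ∑ e ∈ (red φ).2.2.toFinset, f e = ∑ a ∈ (I0 φ).toFinset, f (nm φ a) := by
  rw [red_image, Finset.sum_image]
  intro a ha b hb h
  exact nm_inj (by simpa using ha) (by simpa using hb) h

/-- positions of the points -/
noncomputable def pp (φ : Fm) (τ : ℕ → Bool) (n : ℕ) : ℝ × ℝ :=
  match (V0 φ)[n]? with
  | some q => (cx φ τ q, cy φ τ q)
  | none => (0, 0)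

/-- positions of the lines -/
noncomputable def PP (φ : Fm) (τ : ℕ → Bool) (n : ℕ) : ℝ × ℝ :=
  match (F0 φ)[n]? with
  | some q => (cA φ τ q, cC q)
  | none => (0, 0)

theorem pp_index {τ : ℕ → Bool} {q : Pt} (h : q ∈ V0 φ) :
    pp φ τ (index (V0 φ) q) = (cx φ τ q, cy φ τ q) := by
  unfold pp
  rw [getElem?_index h]

theorem PP_index {τ : ℕ → Bool} {q : Ln} (h : q ∈ F0 φ) :
    PP φ τ (index (F0 φ) q) = (cA φ τ q, cC q) := by
  unfold PP
  rw [getElem?_index h]

theorem yes (h : SAT3 φ) : Independent (red φ) := by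
  obtain ⟨τ, hτ⟩ := h
  have hsat : ∀ c < φ.length, ∃ k, k < 3 ∧ tr φ τ (c, k) := by
    intro c hc
    rcases hτ _ (List.getElem_mem hc) with h | h | h
    · refine ⟨0, by omega, ((c, 0), φ[c].1), ?_, rfl, h⟩
      rw [mem_occ]
      exact ⟨φ[c], List.getElem?_eq_getElem hc, Or.inl ⟨rfl, rfl⟩⟩
    · refine ⟨1, by omega, ((c, 1), φ[c].2.1), ?_, rfl, h⟩
      rw [mem_occ]
      exact ⟨φ[c], List.getElem?_eq_getElem hc, Or.inr (Or.inl ⟨rfl, rfl⟩)⟩
    · refine ⟨2, by omega, ((c, 2), φ[c].2.2), ?_, rfl, h⟩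
      rw [mem_occ]
      exact ⟨φ[c], List.getElem?_eq_getElem hc, Or.inr (Or.inr ⟨rfl, rfl⟩)⟩
  refine ⟨pp φ τ, PP φ τ, ?_, ?_, ?_, ?_⟩
  · intro e he
    obtain ⟨a, ha, rfl⟩ := mem_red.1 he
    simp only [nm]
    rw [pp_index (mem_V0 ha), PP_index (mem_F0 ha)]
    exact realizes ha
  · rintro ⟨a, b, c, hab, h⟩
    have h0 := h _ (List.mem_range.2 (index_lt (mem_V0z (φ := φ) (i := 0) (by omega))))
    have h1 := h _ (List.mem_range.2 (index_lt (mem_V0z (φ := φ) (i := 1) (by omega))))
    have h2 := h _ (List.mem_range.2 (index_lt (mem_V0z (φ := φ) (i := 2) (by omega))))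
    rw [pp_index (mem_V0z (by omega))] at h0 h1 h2
    simp only [cx, cy] at h0 h1 h2
    have ha : a = 0 := by linarith
    have hb : b = 0 := by linarith
    rcases hab with hab | hab
    · exact hab ha
    · exact hab hb
  · rintro ⟨u, v, h⟩
    have h0 := h _ (List.mem_range.2 (index_lt (mem_F0z (φ := φ) (i := 0) (by omega))))
    have h1 := h _ (List.mem_range.2 (index_lt (mem_F0z (φ := φ) (i := 1) (by omega))))
    rw [PP_index (mem_F0z (by omega))] at h0 h1
    simp only [cA, cC] at h0 h1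
    linarith
  · rw [li_iff (red_isStr φ)]
    intro w h0 h1 h2 h3 h4
    simp only [sum_red] at h1 h2 h3 h4
    have key := noStress hsat (fun a => if a ∈ I0 φ then w (nm φ a) else 0) ?_ ?_ ?_ ?_ ?_
    · intro e
      by_cases he : e ∈ (red φ).2.2
      · obtain ⟨a, ha, rfl⟩ := mem_red.1 he
        have := key a
        simpa only [if_pos ha] using this
      · exact h0 e (by simpa using he)
    · intro a ha
      rw [List.mem_toFinset] at ha
      simp only [if_neg ha]
    · intro p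
      by_cases hp : p ∈ V0 φ
      · refine Eq.trans (Finset.sum_congr rfl fun a ha => ?_) (h1 (index (V0 φ) p))
        rw [List.mem_toFinset] at ha
        rw [if_pos ha]
        refine if_congr ?_ rfl rfl
        exact ⟨fun h => by simp only [nm, h], fun h => index_inj (mem_V0 ha) hp h⟩
      · refine Finset.sum_eq_zero fun a ha => if_neg ?_
        rintro rfl
        rw [List.mem_toFinset] at ha
        exact hp (mem_V0 ha)
    · intro p
      by_cases hp : p ∈ V0 φ
      · refine Eq.trans (Finset.sum_congr rfl fun a ha => ?_) (h2 (index (V0 φ) p))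
        rw [List.mem_toFinset] at ha
        rw [if_pos ha]
        simp only [nm]
        rw [PP_index (mem_F0 ha)]
        refine if_congr ?_ rfl rfl
        exact ⟨fun h => by simp only [h], fun h => index_inj (mem_V0 ha) hp h⟩
      · refine Finset.sum_eq_zero fun a ha => if_neg ?_
        rintro rfl
        rw [List.mem_toFinset] at ha
        exact hp (mem_V0 ha)
    · intro l
      by_cases hl : l ∈ F0 φ
      · refine Eq.trans (Finset.sum_congr rfl fun a ha => ?_) (h3 (index (F0 φ) l))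
        rw [List.mem_toFinset] at ha
        rw [if_pos ha]
        refine if_congr ?_ rfl rfl
        exact ⟨fun h => by simp only [nm, h], fun h => index_inj (mem_F0 ha) hl h⟩
      · refine Finset.sum_eq_zero fun a ha => if_neg ?_
        rintro rfl
        rw [List.mem_toFinset] at ha
        exact hl (mem_F0 ha)
    · intro l
      by_cases hl : l ∈ F0 φ
      · refine Eq.trans (Finset.sum_congr rfl fun a ha => ?_) (h4 (index (F0 φ) l))
        rw [List.mem_toFinset] at ha
        rw [if_pos ha]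
        simp only [nm]
        rw [pp_index (mem_V0 ha)]
        refine if_congr ?_ rfl rfl
        exact ⟨fun h => by simp only [h], fun h => index_inj (mem_F0 ha) hl h⟩
      · refine Finset.sum_eq_zero fun a ha => if_neg ?_
        rintro rfl
        rw [List.mem_toFinset] at ha
        exact hl (mem_F0 ha)

theorem no (h : Independent (red φ)) : SAT3 φ := by
  classical
  obtain ⟨p, P, hR, -, -, hli⟩ := h
  rw [li_iff (red_isStr φ)] at hli
  set X : Pt → ℝ := fun a => (p (index (V0 φ) a)).1 with hX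
  set A : Ln → ℝ := fun b => (P (index (F0 φ) b)).1 with hA
  have hin : ∀ a ∈ I0 φ, nm φ a ∈ (red φ).2.2.toFinset := by
    intro a ha
    rw [List.mem_toFinset]
    exact mem_red.2 ⟨a, ha, rfl⟩
  have inc : ∀ a b, (a, b) ∈ I0 φ →
      A b * X a + (p (index (V0 φ) a)).2 + (P (index (F0 φ) b)).2 = 0 := by
    intro a b hab
    exact hR _ (mem_red.2 ⟨_, hab, rfl⟩)
  have K22 : ∀ a b l m, (a, l) ∈ I0 φ → (b, l) ∈ I0 φ → (a, m) ∈ I0 φ → (b, m) ∈ I0 φ →
      A l = A m ∨ X a = X b := by
    intro a b l m h1 h2 h3 h4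
    have : (A l - A m) * (X a - X b) = 0 := by
      linear_combination inc _ _ h1 - inc _ _ h2 - inc _ _ h3 + inc _ _ h4
    rcases mul_eq_zero.1 this with h | h
    · exact Or.inl (sub_eq_zero.1 h)
    · exact Or.inr (sub_eq_zero.1 h)
  have forceP : ∀ a b (l : Fin 3 → Ln), a ≠ b → Function.Injective l → (∀ i, (a, l i) ∈ I0 φ) →
      (∀ i, (b, l i) ∈ I0 φ) → X a ≠ X b := by
    intro a b l hab hl h1 h2
    refine K23 hli (p := index (V0 φ) a) (q := index (V0 φ) b)
      (l := fun i => index (F0 φ) (l i)) ?_ ?_ (fun i => hin _ (h1 i)) (fun i => hin _ (h2 i))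
    · intro h
      exact hab (index_inj (mem_V0 (h1 0)) (mem_V0 (h2 0)) h)
    · intro i j hij
      exact hl (index_inj (mem_F0 (h1 i)) (mem_F0 (h1 j)) hij)
  have forceL : ∀ l m (a : Fin 3 → Pt), l ≠ m → Function.Injective a → (∀ i, (a i, l) ∈ I0 φ) →
      (∀ i, (a i, m) ∈ I0 φ) → A l ≠ A m := by
    intro l m a hab hl h1 h2
    refine K32 hli (l := index (F0 φ) l) (m := index (F0 φ) m)
      (p := fun i => index (V0 φ) (a i)) ?_ ?_ (fun i => hin _ (h1 i)) (fun i => hin _ (h2 i))
    · intro h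
      exact hab (index_inj (mem_F0 (h1 0)) (mem_F0 (h2 0)) h)
    · intro i j hij
      exact hl (index_inj (mem_V0 (h1 i)) (mem_V0 (h1 j)) hij)
  have fr : ∀ q ∈ occ φ, X (.r q.1) ≠ X (.t q.1) := by
    intro q hq
    refine forceP _ _ (fun i => .d q.1 i) (by simp) (fun i j h => ?_) (fun i => ?_) (fun i => ?_)
    · simpa [Fin.ext_iff] using h
    · refine gad_sub hq ?_
      fin_cases i <;> simp [gad]
    · refine gad_sub hq ?_
      fin_cases i <;> simp [gad]
  have fc : ∀ c < φ.length, A (.lam c 0) ≠ A (.lam c 3) := by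
    intro c hc
    refine forceL _ _ (fun i => .e c i) (by simp) (fun i j h => ?_) (fun i => ?_) (fun i => ?_)
    · simpa [Fin.ext_iff] using h
    · refine cch_sub hc ?_
      fin_cases i <;> simp [cch]
    · refine cch_sub hc ?_
      fin_cases i <;> simp [cch]
  have fp : ∀ q ∈ occ φ, ∀ q' ∈ occ φ, q.2.1 = true → q'.2.1 = false → q.2.2 = q'.2.2 →
      A (.kap q.1) ≠ A (.kap q'.1) := by
    intro q hq q' hq' h1 h2 h3
    have hne : q.1 ≠ q'.1 := by
      intro h
      rw [occ_inj hq hq' h, h2] at h1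
      simp at h1
    refine forceL _ _ (fun i => .f q.1 q'.1 i) (by simpa using hne) (fun i j h => ?_)
      (fun i => ?_) (fun i => ?_)
    · simpa [Fin.ext_iff] using h
    · refine pch_sub hq hq' h1 h2 h3 ?_
      fin_cases i <;> simp [pch]
    · refine pch_sub hq hq' h1 h2 h3 ?_
      fin_cases i <;> simp [pch]
  refine ⟨fun x => decide (∃ q ∈ occ φ, q.2 = (true, x) ∧ A (.kap q.1) = A (.ell x)), ?_⟩
  intro cl hcl
  by_contra hcon
  push_neg at hcon
  obtain ⟨c, hc, rfl⟩ := List.getElem_of_mem hcl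
  have step : ∀ q ∈ occ φ, q.1.1 = c →
      decide (∃ q' ∈ occ φ, q'.2 = (true, q.2.2) ∧ A (.kap q'.1) = A (.ell q.2.2)) ≠ q.2.1 →
      A (.lam c q.1.2) = A (.lam c (q.1.2 + 1)) := by
    intro q hq hqc hne
    have h1 : A (.kap q.1) ≠ A (.ell q.2.2) := by
      intro h
      cases hb : q.2.1 with
      | true =>
        apply hne
        rw [hb, decide_eq_true_eq]
        exact ⟨q, hq, Prod.ext hb rfl, h⟩
      | false =>
        rw [hb] at hne
        have h2 : decide (∃ q' ∈ occ φ, q'.2 = (true, q.2.2) ∧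
            A (.kap q'.1) = A (.ell q.2.2)) = true := by
          cases h3 : decide (∃ q' ∈ occ φ, q'.2 = (true, q.2.2) ∧
            A (.kap q'.1) = A (.ell q.2.2)) with
          | true => rfl
          | false => exact absurd h3 hne
        rw [decide_eq_true_eq] at h2
        obtain ⟨q', hq', h3, h4⟩ := h2
        exact fp q' hq' q hq (by rw [h3]) hb (by rw [h3]) (h4.trans h.symm)
    have h2 : X (.r q.1) = X (.s q.1) := by
      rcases K22 (.r q.1) (.s q.1) (.kap q.1) (.ell q.2.2) (gad_sub hq (by simp [gad]))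
        (gad_sub hq (by simp [gad])) (gad_sub hq (by simp [gad]))
        (gad_sub hq (by simp [gad])) with h | h
      · exact absurd h h1
      · exact h
    have h3 : X (.s q.1) ≠ X (.t q.1) := by
      rw [← h2]
      exact fr q hq
    rcases K22 (.s q.1) (.t q.1) (.lam q.1.1 q.1.2) (.lam q.1.1 (q.1.2 + 1))
      (gad_sub hq (by simp [gad])) (gad_sub hq (by simp [gad])) (gad_sub hq (by simp [gad]))
      (gad_sub hq (by simp [gad])) with h | h
    · rw [← hqc]
      exact h
    · exact absurd h h3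
  have s0 := step ((c, 0), φ[c].1) (by
    rw [mem_occ]
    exact ⟨φ[c], List.getElem?_eq_getElem hc, Or.inl ⟨rfl, rfl⟩⟩) rfl hcon.1
  have s1 := step ((c, 1), φ[c].2.1) (by
    rw [mem_occ]
    exact ⟨φ[c], List.getElem?_eq_getElem hc, Or.inr (Or.inl ⟨rfl, rfl⟩)⟩) rfl hcon.2.1
  have s2 := step ((c, 2), φ[c].2.2) (by
    rw [mem_occ]
    exact ⟨φ[c], List.getElem?_eq_getElem hc, Or.inr (Or.inr ⟨rfl, rfl⟩)⟩) rfl hcon.2.2
  exact fc c hc (s0.trans (s1.trans s2))

theorem correct (φ : Fm) : SAT3 φ ↔ Independent (red φ) := ⟨yes, no⟩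

end Pool.Agent.H657R2.Inc
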