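import Pool.Agent.H657R2.Inc.Main
import Pool.Agent.H671R2.PolyAuto

/-!
# The reduction is computable in polynomial time
-/

namespace Pool.Agent.H657R2.Inc

open Pool.Agent.NPC Pool.Agent.NPC.H598R2

/-- code of a name of a point -/
def Pt.code : Pt → List ℕ
  | .r o => [0, o.1, o.2]
  | .s o => [1, o.1, o.2]
  | .t o => [2, o.1, o.2]
  | .e c i => [3, c, i]
  | .f o o' i => [4, o.1, o.2, o'.1, o'.2, i]
  | .z i => [5, i]

theorem Pt.code_inj : Function.Injective Pt.code := by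
  intro a b h
  cases a <;> cases b <;> simp_all [Pt.code, Prod.ext_iff]

instance : TEnc Pt := ⟨fun a => toT a.code, fun _ _ h => Pt.code_inj (TEnc.inj h)⟩

/-- code of a name of a line -/
def Ln.code : Ln → List ℕ
  | .ell x => [0, x]
  | .kap o => [1, o.1, o.2]
  | .lam c j => [2, c, j]
  | .d o i => [3, o.1, o.2, i]
  | .zl i => [4, i]

theorem Ln.code_inj : Function.Injective Ln.code := by
  intro a b h
  cases a <;> cases b <;> simp_all [Ln.code, Prod.ext_iff]

instance : TEnc Ln := ⟨fun a => toT a.code, fun _ _ h => Ln.code_inj (TEnc.inj h)⟩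

section

variable {α : Type} [TEnc α]

theorem pr {o : α → ℕ × ℕ} (ho : Poly o) : Poly (fun a => Pt.r (o a)) :=
  Poly.of_toT (Poly.toT' (f := fun a => [0, (o a).1, (o a).2]) (by fun_prop))

theorem ps {o : α → ℕ × ℕ} (ho : Poly o) : Poly (fun a => Pt.s (o a)) :=
  Poly.of_toT (Poly.toT' (f := fun a => [1, (o a).1, (o a).2]) (by fun_prop))

theorem pt {o : α → ℕ × ℕ} (ho : Poly o) : Poly (fun a => Pt.t (o a)) :=
  Poly.of_toT (Poly.toT' (f := fun a => [2, (o a).1, (o a).2]) (by fun_prop))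

theorem pe {c i : α → ℕ} (hc : Poly c) (hi : Poly i) : Poly (fun a => Pt.e (c a) (i a)) :=
  Poly.of_toT (Poly.toT' (f := fun a => [3, c a, i a]) (by fun_prop))

theorem pf {o o' : α → ℕ × ℕ} {i : α → ℕ} (ho : Poly o) (ho' : Poly o') (hi : Poly i) :
    Poly (fun a => Pt.f (o a) (o' a) (i a)) :=
  Poly.of_toT (Poly.toT' (f := fun a => [4, (o a).1, (o a).2, (o' a).1, (o' a).2, i a])
    (by fun_prop))

theorem pell {x : α → ℕ} (hx : Poly x) : Poly (fun a => Ln.ell (x a)) :=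
  Poly.of_toT (Poly.toT' (f := fun a => [0, x a]) (by fun_prop))

theorem pkap {o : α → ℕ × ℕ} (ho : Poly o) : Poly (fun a => Ln.kap (o a)) :=
  Poly.of_toT (Poly.toT' (f := fun a => [1, (o a).1, (o a).2]) (by fun_prop))

theorem plam {c i : α → ℕ} (hc : Poly c) (hi : Poly i) : Poly (fun a => Ln.lam (c a) (i a)) :=
  Poly.of_toT (Poly.toT' (f := fun a => [2, c a, i a]) (by fun_prop))

theorem pd {o : α → ℕ × ℕ} {i : α → ℕ} (ho : Poly o) (hi : Poly i) :
    Poly (fun a => Ln.d (o a) (i a)) :=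
  Poly.of_toT (Poly.toT' (f := fun a => [3, (o a).1, (o a).2, i a]) (by fun_prop))

attribute [local fun_prop] pr ps pt pe pf pell pkap plam pd

theorem pgad {q : α → (ℕ × ℕ) × Lit ℕ} (hq : Poly q) : Poly (fun a => gad (q a)) := by
  unfold gad
  fun_prop

theorem pcch {c : α → ℕ} (hc : Poly c) : Poly (fun a => cch (c a)) := by
  unfold cch
  fun_prop

theorem ppch {o o' : α → ℕ × ℕ} (ho : Poly o) (ho' : Poly o') :
    Poly (fun a => pch (o a) (o' a)) := by
  unfold pch
  fun_prop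

theorem pocc : Poly occ := by
  unfold occ
  fun_prop

attribute [local fun_prop] pgad pcch ppch pocc

theorem pI0 : Poly I0 := by
  unfold I0
  refine Poly.append ?_ (Poly.append ?_ ?_)
  · refine Poly.flatMap (F := fun _ q => gad q) pocc ?_
    fun_prop
  · refine Poly.flatMap (F := fun (_ : Fm) (q : (Lit ℕ × Lit ℕ × Lit ℕ) × ℕ) => cch q.2)
      (Poly.zipIdx Poly.id) ?_
    fun_prop
  · refine Poly.flatMap (F := fun (φ : Fm) (q : (ℕ × ℕ) × Lit ℕ) => (occ φ).flatMap (fun q' =>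
      if q.2.1 = true ∧ q'.2.1 = false ∧ q.2.2 = q'.2.2 then pch q.1 q'.1 else [])) pocc ?_
    refine Poly.flatMap (F := fun (a : Fm × ((ℕ × ℕ) × Lit ℕ)) (q' : (ℕ × ℕ) × Lit ℕ) =>
      if a.2.2.1 = true ∧ q'.2.1 = false ∧ a.2.2.2 = q'.2.2 then pch a.2.1 q'.1 else [])
      (pocc.comp (Poly.fst Poly.id)) ?_
    fun_prop

theorem pV0 : Poly V0 := by
  unfold V0
  refine dd_poly (Poly.append (NPC.Poly.map (F := fun _ (e : Pt × Ln) => e.1) pI0 (by fun_prop))
    (NPC.Poly.const _))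

theorem pF0 : Poly F0 := by
  unfold F0
  refine dd_poly (Poly.append (NPC.Poly.map (F := fun _ (e : Pt × Ln) => e.2) pI0 (by fun_prop))
    (NPC.Poly.const _))

theorem pred : Poly red := by
  unfold red
  refine Poly.pair (UPoly.range (UPoly.length pV0)) (Poly.pair (UPoly.range (UPoly.length pF0)) ?_)
  refine dd_poly (NPC.Poly.map (F := fun φ (e : Pt × Ln) => nm φ e) pI0 ?_)
  unfold nm
  exact Poly.pair (Poly.index (pV0.comp (Poly.fst Poly.id)) (Poly.fst (Poly.snd Poly.id)))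
    (Poly.index (pF0.comp (Poly.fst Poly.id)) (Poly.snd (Poly.snd Poly.id)))

end

end Pool.Agent.H657R2.Inc
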