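import Pool.Agent.H657R2.Inc.Lin
import Pool.Agent.NPC.Sat

/-!
# The incidence structure of a formula
-/

namespace Pool.Agent.H657R2.Inc

open Pool.Agent.NPC

/-- names of points -/
inductive Pt : Type
  | r (o : ℕ × ℕ)
  | s (o : ℕ × ℕ)
  | t (o : ℕ × ℕ)
  | e (c i : ℕ)
  | f (o o' : ℕ × ℕ) (i : ℕ)
  | z (i : ℕ)
  deriving DecidableEq

/-- names of lines -/
inductive Ln : Type
  | ell (x : ℕ)
  | kap (o : ℕ × ℕ)
  | lam (c j : ℕ)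
  | d (o : ℕ × ℕ) (i : ℕ)
  | zl (i : ℕ)
  deriving DecidableEq

/-- formulas -/
abbrev Fm : Type := List (Lit ℕ × Lit ℕ × Lit ℕ)

/-- the occurrences of literals -/
def occ (φ : Fm) : List ((ℕ × ℕ) × Lit ℕ) :=
  φ.zipIdx.flatMap (fun q => [((q.2, 0), q.1.1), ((q.2, 1), q.1.2.1), ((q.2, 2), q.1.2.2)])

/-- the incidences of an occurrence -/
def gad (q : (ℕ × ℕ) × Lit ℕ) : List (Pt × Ln) :=
  [(.r q.1, .ell q.2.2), (.s q.1, .ell q.2.2), (.r q.1, .kap q.1), (.s q.1, .kap q.1),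
   (.s q.1, .lam q.1.1 q.1.2), (.t q.1, .lam q.1.1 q.1.2),
   (.s q.1, .lam q.1.1 (q.1.2 + 1)), (.t q.1, .lam q.1.1 (q.1.2 + 1)),
   (.r q.1, .d q.1 0), (.t q.1, .d q.1 0), (.r q.1, .d q.1 1), (.t q.1, .d q.1 1),
   (.r q.1, .d q.1 2), (.t q.1, .d q.1 2)]

/-- the incidences forcing the first and the last line of a clause to be different -/
def cch (c : ℕ) : List (Pt × Ln) :=
  [(.e c 0, .lam c 0), (.e c 0, .lam c 3), (.e c 1, .lam c 0), (.e c 1, .lam c 3),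
   (.e c 2, .lam c 0), (.e c 2, .lam c 3)]

/-- the incidences forcing the lines of two opposite literals to be different -/
def pch (o o' : ℕ × ℕ) : List (Pt × Ln) :=
  [(.f o o' 0, .kap o), (.f o o' 0, .kap o'), (.f o o' 1, .kap o), (.f o o' 1, .kap o'),
   (.f o o' 2, .kap o), (.f o o' 2, .kap o')]

/-- all incidences -/
def I0 (φ : Fm) : List (Pt × Ln) :=
  (occ φ).flatMap gad ++ (φ.zipIdx.flatMap (fun q => cch q.2) ++
    (occ φ).flatMap (fun q => (occ φ).flatMap (fun q' =>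
      if q.2.1 = true ∧ q'.2.1 = false ∧ q.2.2 = q'.2.2 then pch q.1 q'.1 else [])))

theorem mem_occ {φ : Fm} {q : (ℕ × ℕ) × Lit ℕ} : q ∈ occ φ ↔ ∃ c, φ[q.1.1]? = some c ∧
    ((q.1.2 = 0 ∧ c.1 = q.2) ∨ (q.1.2 = 1 ∧ c.2.1 = q.2) ∨ (q.1.2 = 2 ∧ c.2.2 = q.2)) := by
  obtain ⟨⟨c, k⟩, l⟩ := q
  simp only [occ, List.mem_flatMap, List.mem_cons, List.not_mem_nil, or_false, Prod.mk.injEq]
  constructor
  · rintro ⟨⟨cl, i⟩, h, h1⟩
    rw [List.mem_zipIdx_iff_getElem?] at h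
    refine ⟨cl, ?_, ?_⟩
    · rcases h1 with h1 | h1 | h1 <;> rw [h1.1.1] <;> exact h
    · rcases h1 with h1 | h1 | h1
      · exact Or.inl ⟨h1.1.2, h1.2.symm⟩
      · exact Or.inr (Or.inl ⟨h1.1.2, h1.2.symm⟩)
      · exact Or.inr (Or.inr ⟨h1.1.2, h1.2.symm⟩)
  · rintro ⟨cl, h, h1⟩
    refine ⟨(cl, c), ?_, ?_⟩
    · rw [List.mem_zipIdx_iff_getElem?]
      exact h
    · rcases h1 with h1 | h1 | h1
      · exact Or.inl ⟨⟨rfl, h1.1⟩, h1.2.symm⟩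
      · exact Or.inr (Or.inl ⟨⟨rfl, h1.1⟩, h1.2.symm⟩)
      · exact Or.inr (Or.inr ⟨⟨rfl, h1.1⟩, h1.2.symm⟩)

theorem occ_inj {φ : Fm} {q q' : (ℕ × ℕ) × Lit ℕ} (h : q ∈ occ φ) (h' : q' ∈ occ φ)
    (hq : q.1 = q'.1) : q = q' := by
  rw [mem_occ] at h h'
  obtain ⟨c, h1, h2⟩ := h
  obtain ⟨c', h1', h2'⟩ := h'
  rw [hq, h1', Option.some.injEq] at h1
  subst h1
  rw [hq] at h2
  refine Prod.ext hq ?_
  rcases h2 with h2 | h2 | h2 <;> rcases h2' with h2' | h2' | h2' <;>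
    first
    | (exact h2.2.symm.trans h2'.2)
    | (exfalso; omega)

theorem occ_lt {φ : Fm} {q : (ℕ × ℕ) × Lit ℕ} (h : q ∈ occ φ) : q.1.2 < 3 := by
  rw [mem_occ] at h
  obtain ⟨c, _, h⟩ := h
  omega

theorem I0_inv {φ : Fm} {e : Pt × Ln} (h : e ∈ I0 φ) : (∃ q ∈ occ φ, e ∈ gad q) ∨
    (∃ c, c < φ.length ∧ e ∈ cch c) ∨
    ∃ q ∈ occ φ, ∃ q' ∈ occ φ, q.2.1 = true ∧ q'.2.1 = false ∧ q.2.2 = q'.2.2 ∧
      e ∈ pch q.1 q'.1 := by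
  unfold I0 at h
  rw [List.mem_append, List.mem_append] at h
  rcases h with h | h | h
  · left
    exact List.mem_flatMap.1 h
  · right; left
    obtain ⟨⟨cl, i⟩, h1, h2⟩ := List.mem_flatMap.1 h
    rw [List.mem_zipIdx_iff_getElem?] at h1
    exact ⟨i, (List.getElem?_eq_some_iff.1 h1).1, h2⟩
  · right; right
    obtain ⟨q, hq, h1⟩ := List.mem_flatMap.1 h
    obtain ⟨q', hq', h2⟩ := List.mem_flatMap.1 h1
    split_ifs at h2 with h3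
    · exact ⟨q, hq, q', hq', h3.1, h3.2.1, h3.2.2, h2⟩
    · simp at h2

theorem gad_sub {φ : Fm} {q : (ℕ × ℕ) × Lit ℕ} (hq : q ∈ occ φ) {e : Pt × Ln} (he : e ∈ gad q) :
    e ∈ I0 φ := by
  unfold I0
  rw [List.mem_append]
  exact Or.inl (List.mem_flatMap.2 ⟨q, hq, he⟩)

theorem cch_sub {φ : Fm} {c : ℕ} (hc : c < φ.length) {e : Pt × Ln} (he : e ∈ cch c) :
    e ∈ I0 φ := by
  unfold I0
  rw [List.mem_append, List.mem_append]
  refine Or.inr (Or.inl (List.mem_flatMap.2 ⟨(φ[c], c), ?_, he⟩))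
  rw [List.mem_zipIdx_iff_getElem?]
  exact List.getElem?_eq_getElem hc

theorem pch_sub {φ : Fm} {q q' : (ℕ × ℕ) × Lit ℕ} (hq : q ∈ occ φ) (hq' : q' ∈ occ φ)
    (h1 : q.2.1 = true) (h2 : q'.2.1 = false) (h3 : q.2.2 = q'.2.2) {e : Pt × Ln}
    (he : e ∈ pch q.1 q'.1) : e ∈ I0 φ := by
  unfold I0
  rw [List.mem_append, List.mem_append]
  refine Or.inr (Or.inr (List.mem_flatMap.2 ⟨q, hq, List.mem_flatMap.2 ⟨q', hq', ?_⟩⟩))
  rw [if_pos ⟨h1, h2, h3⟩]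
  exact he

end Pool.Agent.H657R2.Inc
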