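import Pool.Agent.H657R2.Inc.Defs

/-!
# Stresses: the linear dependencies of the rows
-/

namespace Pool.Agent.H657R2.Inc

variable {P L : Type} [DecidableEq P] [DecidableEq L]

/-- the only linear dependency of the rows is the trivial one -/
def NoStress (I : Finset (P × L)) (x : P → ℝ) (A : L → ℝ) : Prop :=
  ∀ w : P × L → ℝ, (∀ e, e ∉ I → w e = 0) →
    (∀ p, ∑ e ∈ I, (if e.1 = p then w e else 0) = 0) →
    (∀ p, ∑ e ∈ I, (if e.1 = p then w e * A e.2 else 0) = 0) →
    (∀ l, ∑ e ∈ I, (if e.2 = l then w e else 0) = 0) →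
    (∀ l, ∑ e ∈ I, (if e.2 = l then w e * x e.1 else 0) = 0) → ∀ e, w e = 0

theorem elimP {I : Finset (P × L)} {A : L → ℝ} {w : P × L → ℝ} (h0 : ∀ e, e ∉ I → w e = 0) {p : P}
    (h1 : ∑ e ∈ I, (if e.1 = p then w e else 0) = 0)
    (h2 : ∑ e ∈ I, (if e.1 = p then w e * A e.2 else 0) = 0) {l m : L} (hA : A l ≠ A m)
    (h : ∀ k, k ≠ l → k ≠ m → w (p, k) = 0) : w (p, l) = 0 ∧ w (p, m) = 0 := by
  have hlm : l ≠ m := fun h => hA (h ▸ rfl)
  have key : ∀ f : L → ℝ, ∑ e ∈ I, (if e.1 = p then w e * f e.2 else 0) =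
      w (p, l) * f l + w (p, m) * f m := by
    intro f
    have h3 : ∑ e ∈ I, (if e.1 = p then w e * f e.2 else 0) =
        ∑ e ∈ I ∪ {(p, l), (p, m)}, (if e.1 = p then w e * f e.2 else 0) := by
      refine Finset.sum_subset Finset.subset_union_left ?_
      intro e _ he
      rw [h0 e he]
      simp
    have h4 : ∑ e ∈ ({(p, l), (p, m)} : Finset (P × L)), (if e.1 = p then w e * f e.2 else 0) =
        ∑ e ∈ I ∪ {(p, l), (p, m)}, (if e.1 = p then w e * f e.2 else 0) := by
      refine Finset.sum_subset Finset.subset_union_right ?_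
      rintro ⟨q, k⟩ _ he
      simp only [Finset.mem_insert, Prod.mk.injEq, Finset.mem_singleton, not_or, not_and] at he
      split_ifs with hq
      · simp only at hq
        rw [hq, h k (he.1 hq) (he.2 hq), zero_mul]
      · rfl
    rw [h3, ← h4, Finset.sum_pair (by simp [hlm])]
    simp
  have e1 := key (fun _ => 1)
  have e2 := key A
  simp only [mul_one] at e1
  rw [h1] at e1
  rw [h2] at e2
  have e3 : w (p, l) * (A l - A m) = 0 := by linear_combination A m * e1 - e2
  have e4 : w (p, l) = 0 := by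
    rcases mul_eq_zero.1 e3 with h | h
    · exact h
    · exact absurd (sub_eq_zero.1 h) hA
  refine ⟨e4, ?_⟩
  rw [e4] at e1
  linarith

theorem elimP1 {I : Finset (P × L)} {w : P × L → ℝ} (h0 : ∀ e, e ∉ I → w e = 0) {p : P}
    (h1 : ∑ e ∈ I, (if e.1 = p then w e else 0) = 0) {l : L}
    (h : ∀ k, k ≠ l → w (p, k) = 0) : w (p, l) = 0 := by
  have h3 : ∑ e ∈ I, (if e.1 = p then w e else 0) =
      ∑ e ∈ I ∪ {(p, l)}, (if e.1 = p then w e else 0) := by
    refine Finset.sum_subset Finset.subset_union_left ?_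
    intro e _ he
    rw [h0 e he]
    simp
  have h4 : ∑ e ∈ ({(p, l)} : Finset (P × L)), (if e.1 = p then w e else 0) =
      ∑ e ∈ I ∪ {(p, l)}, (if e.1 = p then w e else 0) := by
    refine Finset.sum_subset Finset.subset_union_right ?_
    rintro ⟨q, k⟩ _ he
    simp only [Finset.mem_singleton, Prod.mk.injEq, not_and] at he
    split_ifs with hq
    · simp only at hq
      rw [hq, h k (he hq)]
    · rfl
  rw [h1] at h3
  rw [← h4, Finset.sum_singleton] at h3
  simpa using h3.symm

omit [DecidableEq P] [DecidableEq L] in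
theorem sum_swap (I : Finset (P × L)) (f : L × P → ℝ) :
    ∑ e ∈ I.map (Equiv.prodComm P L).toEmbedding, f e = ∑ e ∈ I, f e.swap := by
  rw [Finset.sum_map]
  rfl

theorem NoStress.swap {I : Finset (P × L)} {x : P → ℝ} {A : L → ℝ} (h : NoStress I x A) :
    NoStress (I.map (Equiv.prodComm P L).toEmbedding) A x := by
  intro w h0 h1 h2 h3 h4
  have hmem : ∀ e : P × L, e.swap ∈ I.map (Equiv.prodComm P L).toEmbedding ↔ e ∈ I := by
    intro e
    rw [Finset.mem_map]
    constructor
    · rintro ⟨a, ha, hae⟩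
      have : a = e := by
        have := congrArg Prod.swap hae
        simpa using this
      rwa [← this]
    · intro he
      exact ⟨e, he, rfl⟩
  have key := h (fun e => w e.swap) ?_ ?_ ?_ ?_ ?_
  · intro e
    have := key e.swap
    simpa using this
  · intro e he
    exact h0 _ fun h => he ((hmem e).1 h)
  · intro p
    exact (sum_swap I (fun e => if e.2 = p then w e else 0)).symm.trans (h3 p)
  · intro p
    exact (sum_swap I (fun e => if e.2 = p then w e * A e.1 else 0)).symm.trans (h4 p)
  · intro l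
    exact (sum_swap I (fun e => if e.1 = l then w e else 0)).symm.trans (h1 l)
  · intro l
    exact (sum_swap I (fun e => if e.1 = l then w e * x e.2 else 0)).symm.trans (h2 l)

theorem elimL {I : Finset (P × L)} {x : P → ℝ} {w : P × L → ℝ} (h0 : ∀ e, e ∉ I → w e = 0) {l : L}
    (h1 : ∑ e ∈ I, (if e.2 = l then w e else 0) = 0)
    (h2 : ∑ e ∈ I, (if e.2 = l then w e * x e.1 else 0) = 0) {p q : P} (hx : x p ≠ x q)
    (h : ∀ k, k ≠ p → k ≠ q → w (k, l) = 0) : w (p, l) = 0 ∧ w (q, l) = 0 := by
  refine elimP (I := I.map (Equiv.prodComm P L).toEmbedding) (A := x) (w := fun e => w e.swap)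
    ?_ (p := l) ?_ ?_ (l := p) (m := q) hx h
  · intro e he
    apply h0
    intro h3
    apply he
    rw [Finset.mem_map]
    exact ⟨e.swap, h3, by simp⟩
  · exact (sum_swap I (fun e => if e.1 = l then w e.swap else 0)).trans h1
  · exact (sum_swap I (fun e => if e.1 = l then w e.swap * x e.2 else 0)).trans h2

theorem elimL1 {I : Finset (P × L)} {w : P × L → ℝ} (h0 : ∀ e, e ∉ I → w e = 0) {l : L}
    (h1 : ∑ e ∈ I, (if e.2 = l then w e else 0) = 0) {p : P}
    (h : ∀ k, k ≠ p → w (k, l) = 0) : w (p, l) = 0 := by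
  refine elimP1 (I := I.map (Equiv.prodComm P L).toEmbedding) (w := fun e => w e.swap)
    ?_ (p := l) ?_ (l := p) h
  · intro e he
    apply h0
    intro h3
    apply he
    rw [Finset.mem_map]
    exact ⟨e.swap, h3, by simp⟩
  · exact (sum_swap I (fun e => if e.1 = l then w e.swap else 0)).trans h1

theorem exists_coeff (a : Fin 3 → ℝ) :
    ∃ c : Fin 3 → ℝ, c ≠ 0 ∧ ∑ i, c i = 0 ∧ ∑ i, c i * a i = 0 := by
  by_cases h : a 0 = a 1 ∧ a 1 = a 2
  · refine ⟨![1, -1, 0], ?_, ?_, ?_⟩
    · intro h1
      have := congrFun h1 0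
      simp at this
    · simp [Fin.sum_univ_three]
    · simp [Fin.sum_univ_three, h.1]
  · refine ⟨![a 1 - a 2, a 2 - a 0, a 0 - a 1], ?_, ?_, ?_⟩
    · intro h1
      apply h
      have h2 := congrFun h1 0
      have h3 := congrFun h1 2
      simp only [Matrix.cons_val_zero, Pi.zero_apply, Matrix.cons_val] at h2 h3
      exact ⟨by linarith, by linarith⟩
    · simp [Fin.sum_univ_three]
    · simp only [Fin.sum_univ_three, Matrix.cons_val_zero, Matrix.cons_val_one, Matrix.cons_val]
      ring

/-- two points on three common lines are distinct -/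
theorem K23 {I : Finset (P × L)} {x : P → ℝ} {A : L → ℝ} (h : NoStress I x A) {p q : P}
    (hpq : p ≠ q) {l : Fin 3 → L} (hl : Function.Injective l) (h1 : ∀ i, (p, l i) ∈ I)
    (h2 : ∀ i, (q, l i) ∈ I) : x p ≠ x q := by
  intro hx
  obtain ⟨c, hc, hc1, hc2⟩ := exists_coeff (fun i => A (l i))
  let w : P × L → ℝ := fun e => ∑ i, c i * ((if e = (p, l i) then 1 else 0) -
    (if e = (q, l i) then 1 else 0))
  have key : ∀ g : P × L → ℝ, ∑ e ∈ I, w e * g e = ∑ i, c i * (g (p, l i) - g (q, l i)) := by
    intro g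
    simp only [w, Finset.sum_mul]
    rw [Finset.sum_comm]
    refine Finset.sum_congr rfl fun i _ => ?_
    have h3 : ∀ e : P × L, c i * ((if e = (p, l i) then 1 else 0) -
        (if e = (q, l i) then 1 else 0)) * g e =
        c i * (if e = (p, l i) then g e else 0) - c i * (if e = (q, l i) then g e else 0) := by
      intro e
      split_ifs <;> ring
    simp only [h3]
    rw [Finset.sum_sub_distrib, ← Finset.mul_sum, ← Finset.mul_sum, Finset.sum_ite_eq',
      Finset.sum_ite_eq', if_pos (h1 i), if_pos (h2 i)]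
    ring
  have hz := h w ?_ ?_ ?_ ?_ ?_
  · apply hc
    funext i
    have h4 := hz (p, l i)
    simp only [w, Prod.mk.injEq, true_and, hpq, false_and, if_false, sub_zero] at h4
    rw [Finset.sum_eq_single i] at h4
    · simpa using h4
    · intro j _ hj
      rw [if_neg fun h => hj (hl h).symm, mul_zero]
    · intro h
      exact absurd (Finset.mem_univ i) h
  · intro e he
    simp only [w]
    refine Finset.sum_eq_zero fun i _ => ?_
    have h6 : e ≠ (p, l i) := fun h => he (by rw [h]; exact h1 i)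
    have h7 : e ≠ (q, l i) := fun h => he (by rw [h]; exact h2 i)
    rw [if_neg h6, if_neg h7]
    ring
  · intro r
    have := key (fun e => if e.1 = r then 1 else 0)
    simp only [mul_ite, mul_one, mul_zero] at this
    rw [this]
    change ∑ i, c i * ((if p = r then (1 : ℝ) else 0) - (if q = r then 1 else 0)) = 0
    rw [← Finset.sum_mul, hc1, zero_mul]
  · intro r
    have := key (fun e => if e.1 = r then A e.2 else 0)
    simp only [mul_ite, mul_zero] at this
    rw [this]
    have h5 : ∀ i, c i * ((if p = r then A (l i) else 0) - (if q = r then A (l i) else 0)) =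
        (c i * A (l i)) * ((if p = r then 1 else 0) - (if q = r then 1 else 0)) := by
      intro i
      split_ifs <;> ring
    simp only [h5]
    rw [← Finset.sum_mul, hc2, zero_mul]
  · intro m
    have := key (fun e => if e.2 = m then 1 else 0)
    simp only [mul_ite, mul_one, mul_zero] at this
    rw [this]
    simp
  · intro m
    have := key (fun e => if e.2 = m then x e.1 else 0)
    simp only [mul_ite, mul_zero] at this
    rw [this]
    simp [hx]

/-- two lines with three common points are distinct -/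
theorem K32 {I : Finset (P × L)} {x : P → ℝ} {A : L → ℝ} (h : NoStress I x A) {l m : L}
    (hlm : l ≠ m) {p : Fin 3 → P} (hp : Function.Injective p) (h1 : ∀ i, (p i, l) ∈ I)
    (h2 : ∀ i, (p i, m) ∈ I) : A l ≠ A m := by
  refine K23 h.swap hlm hp (fun i => ?_) fun i => ?_
  · rw [Finset.mem_map]
    exact ⟨(p i, l), h1 i, rfl⟩
  · rw [Finset.mem_map]
    exact ⟨(p i, m), h2 i, rfl⟩

end Pool.Agent.H657R2.Inc
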