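import Pool.Agent.H657R2.Inc.Red

/-!
# Satisfiable formulas give independent structures
-/

namespace Pool.Agent.H657R2.Inc

open Pool.Agent.NPC

variable (φ : Fm) (τ : ℕ → Bool)

/-- the literal at this occurrence is true -/
def tr (o : ℕ × ℕ) : Prop := ∃ q ∈ occ φ, q.1 = o ∧ τ q.2.2 = q.2.1

open Classical in
/-- slopes of the lines of a clause -/
noncomputable def sl (c j : ℕ) : ℝ :=
  1 + (((Finset.range j).filter (fun k => tr φ τ (c, k))).card : ℝ)

open Classical in
/-- coefficients of the lines -/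
noncomputable def cA : Ln → ℝ
  | .ell _ => 0
  | .kap o => if tr φ τ o then 0 else -1
  | .lam c j => - sl φ τ c j
  | .d o _ => if tr φ τ o then 0 else - sl φ τ o.1 o.2
  | .zl _ => 0

/-- constant terms of the lines -/
noncomputable def cC : Ln → ℝ
  | .zl 1 => -1
  | _ => 0

open Classical in
/-- abscissae of the points -/
noncomputable def cx : Pt → ℝ
  | .r o => if tr φ τ o then 1 else 0
  | .t o => if tr φ τ o then 0 else 1
  | .z 1 => 1
  | _ => 0

open Classical in
/-- ordinates of the points -/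
noncomputable def cy : Pt → ℝ
  | .t o => if tr φ τ o then 0 else sl φ τ o.1 o.2
  | .z 2 => 1
  | _ => 0

variable {φ τ}

theorem sl_pos (c j : ℕ) : 1 ≤ sl φ τ c j := by
  classical
  unfold sl
  have := Nat.cast_nonneg (α := ℝ) ((Finset.range j).filter (fun k => tr φ τ (c, k))).card
  linarith

theorem sl_succ_true {c k : ℕ} (h : tr φ τ (c, k)) : sl φ τ c (k + 1) = sl φ τ c k + 1 := by
  classical
  unfold sl
  rw [Finset.range_add_one, Finset.filter_insert, if_pos h, Finset.card_insert_of_notMem (by simp)]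
  push_cast
  ring

theorem sl_succ_false {c k : ℕ} (h : ¬ tr φ τ (c, k)) : sl φ τ c (k + 1) = sl φ τ c k := by
  classical
  unfold sl
  rw [Finset.range_add_one, Finset.filter_insert, if_neg h]

theorem sl_ne {c : ℕ} (h : ∃ k, k < 3 ∧ tr φ τ (c, k)) : sl φ τ c 0 ≠ sl φ τ c 3 := by
  classical
  obtain ⟨k, hk, h⟩ := h
  unfold sl
  rw [Finset.range_zero, Finset.filter_empty, Finset.card_empty]
  have : 0 < ((Finset.range 3).filter (fun k => tr φ τ (c, k))).card :=
    Finset.card_pos.2 ⟨k, Finset.mem_filter.2 ⟨Finset.mem_range.2 hk, h⟩⟩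
  have h2 : (0 : ℝ) < ((Finset.range 3).filter (fun k => tr φ τ (c, k))).card := by
    exact_mod_cast this
  intro h3
  simp only [Nat.cast_zero, add_zero] at h3
  linarith

theorem tr_iff {q : (ℕ × ℕ) × Lit ℕ} (hq : q ∈ occ φ) : tr φ τ q.1 ↔ τ q.2.2 = q.2.1 := by
  constructor
  · rintro ⟨q', hq', h1, h2⟩
    rw [occ_inj hq hq' h1.symm]
    exact h2
  · intro h
    exact ⟨q, hq, rfl, h⟩

/-- the coordinates form a realization -/
theorem realizes {e : Pt × Ln} (h : e ∈ I0 φ) :
    cA φ τ e.2 * cx φ τ e.1 + cy φ τ e.1 + cC e.2 = 0 := by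
  rcases I0_inv h with ⟨q, hq, h⟩ | ⟨c, hc, h⟩ | ⟨q, hq, q', hq', h1, h2, h3, h⟩
  · have hs := @sl_succ_false φ τ q.1.1 q.1.2
    by_cases ht : tr φ τ q.1
    · simp only [gad, List.mem_cons, List.not_mem_nil, or_false] at h
      rcases h with h | h | h | h | h | h | h | h | h | h | h | h | h | h <;> subst h <;>
        simp [cA, cx, cy, cC, ht]
    · have hs := hs ht
      simp only [gad, List.mem_cons, List.not_mem_nil, or_false] at h
      rcases h with h | h | h | h | h | h | h | h | h | h | h | h | h | h <;> subst h <;>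
        simp [cA, cx, cy, cC, ht, hs]
  · simp only [cch, List.mem_cons, List.not_mem_nil, or_false] at h
    rcases h with h | h | h | h | h | h <;> subst h <;> simp [cx, cy, cC]
  · simp only [pch, List.mem_cons, List.not_mem_nil, or_false] at h
    rcases h with h | h | h | h | h | h <;> subst h <;> simp [cx, cy, cC]

end Pool.Agent.H657R2.Inc
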