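import Pool.Agent.H657R2.Inc.Yes

/-!
# Satisfiable formulas give independent structures: independence of the rows
-/

namespace Pool.Agent.H657R2.Inc

open Pool.Agent.NPC

variable {φ : Fm} {τ : ℕ → Bool}

theorem inv_f {o o' : ℕ × ℕ} {i : ℕ} {l : Ln} (h : (Pt.f o o' i, l) ∈ I0 φ) :
    ∃ q ∈ occ φ, ∃ q' ∈ occ φ, q.1 = o ∧ q'.1 = o' ∧ q.2.1 = true ∧ q'.2.1 = false ∧
      q.2.2 = q'.2.2 ∧ (l = .kap o ∨ l = .kap o') := by
  rcases I0_inv h with ⟨q, hq, h⟩ | ⟨c, hc, h⟩ | ⟨q, hq, q', hq', h1, h2, h3, h⟩
  · simp [gad] at h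
  · simp [cch] at h
  · simp only [pch, List.mem_cons, List.not_mem_nil, or_false, Prod.mk.injEq, Pt.f.injEq] at h
    rcases h with h | h | h | h | h | h <;>
      exact ⟨q, hq, q', hq', h.1.1.symm, h.1.2.1.symm, h1, h2, h3, by simp [h.2, h.1.1, h.1.2.1]⟩

theorem inv_e {c i : ℕ} {l : Ln} (h : (Pt.e c i, l) ∈ I0 φ) :
    c < φ.length ∧ (l = .lam c 0 ∨ l = .lam c 3) := by
  rcases I0_inv h with ⟨q, hq, h⟩ | ⟨c, hc, h⟩ | ⟨q, hq, q', hq', h1, h2, h3, h⟩
  · simp [gad] at h
  · simp only [cch, List.mem_cons, List.not_mem_nil, or_false, Prod.mk.injEq, Pt.e.injEq] at h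
    rcases h with h | h | h | h | h | h <;>
      exact ⟨h.1.1 ▸ hc, by simp [h.2, h.1.1]⟩
  · simp [pch] at h

theorem inv_t {o : ℕ × ℕ} {l : Ln} (h : (Pt.t o, l) ∈ I0 φ) :
    (∃ q ∈ occ φ, q.1 = o) ∧
      (l = .lam o.1 o.2 ∨ l = .lam o.1 (o.2 + 1) ∨ ∃ i, l = .d o i) := by
  rcases I0_inv h with ⟨q, hq, h⟩ | ⟨c, hc, h⟩ | ⟨q, hq, q', hq', h1, h2, h3, h⟩
  · simp only [gad, List.mem_cons, List.not_mem_nil, or_false, Prod.mk.injEq, Pt.t.injEq,
      reduceCtorEq, false_and, false_or] at h
    rcases h with h | h | h | h | h <;> refine ⟨⟨q, hq, h.1.symm⟩, ?_⟩ <;> rw [h.1, h.2] <;> simp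
  · simp [cch] at h
  · simp [pch] at h

theorem inv_r {o : ℕ × ℕ} {l : Ln} (h : (Pt.r o, l) ∈ I0 φ) :
    ∃ q ∈ occ φ, q.1 = o ∧ (l = .ell q.2.2 ∨ l = .kap o ∨ ∃ i, l = .d o i) := by
  rcases I0_inv h with ⟨q, hq, h⟩ | ⟨c, hc, h⟩ | ⟨q, hq, q', hq', h1, h2, h3, h⟩
  · simp only [gad, List.mem_cons, List.not_mem_nil, or_false, Prod.mk.injEq, Pt.r.injEq,
      reduceCtorEq, false_and, false_or] at h
    rcases h with h | h | h | h | h <;> refine ⟨q, hq, h.1.symm, ?_⟩ <;> rw [h.1, h.2] <;> simp
  · simp [cch] at h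
  · simp [pch] at h

theorem inv_s {o : ℕ × ℕ} {l : Ln} (h : (Pt.s o, l) ∈ I0 φ) :
    ∃ q ∈ occ φ, q.1 = o ∧ (l = .ell q.2.2 ∨ l = .kap o ∨ l = .lam o.1 o.2 ∨
      l = .lam o.1 (o.2 + 1)) := by
  rcases I0_inv h with ⟨q, hq, h⟩ | ⟨c, hc, h⟩ | ⟨q, hq, q', hq', h1, h2, h3, h⟩
  · simp only [gad, List.mem_cons, List.not_mem_nil, or_false, Prod.mk.injEq, Pt.s.injEq,
      reduceCtorEq, false_and, false_or] at h
    rcases h with h | h | h | h <;> refine ⟨q, hq, h.1.symm, ?_⟩ <;> rw [h.1, h.2] <;> simp
  · simp [cch] at h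
  · simp [pch] at h

theorem inv_z {i : ℕ} {l : Ln} : (Pt.z i, l) ∉ I0 φ := by
  intro h
  rcases I0_inv h with ⟨q, hq, h⟩ | ⟨c, hc, h⟩ | ⟨q, hq, q', hq', h1, h2, h3, h⟩
  · simp [gad] at h
  · simp [cch] at h
  · simp [pch] at h

/-- the rows are linearly independent -/
theorem noStress (hsat : ∀ c < φ.length, ∃ k, k < 3 ∧ tr φ τ (c, k)) :
    NoStress (I0 φ).toFinset (cx φ τ) (cA φ τ) := by
  classical
  intro w h0 h1 h2 h3 h4
  have hz : ∀ p l, (p, l) ∉ I0 φ → w (p, l) = 0 := fun p l h => h0 _ (by simpa using h)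
  have hf : ∀ o o' i l, w (.f o o' i, l) = 0 := by
    intro o o' i l
    by_cases hm : (Pt.f o o' i, l) ∈ I0 φ
    · obtain ⟨q, hq, q', hq', e1, e2, t1, t2, t3, e3⟩ := inv_f hm
      have hA : cA φ τ (.kap o) ≠ cA φ τ (.kap o') := by
        simp only [cA]
        subst e1
        subst e2
        have a1 := tr_iff (τ := τ) hq
        have a2 := tr_iff (τ := τ) hq'
        rw [t1] at a1
        rw [t2, ← t3] at a2
        cases hτ : τ q.2.2 with
        | true =>
          rw [if_pos (a1.2 hτ), if_neg (fun h => by rw [a2, hτ] at h; exact absurd h (by simp))]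
          norm_num
        | false =>
          rw [if_pos (a2.2 hτ), if_neg (fun h => by rw [a1, hτ] at h; exact absurd h (by simp))]
          norm_num
      have key := elimP h0 (h1 (.f o o' i)) (h2 (.f o o' i)) hA (fun k hk hk' =>
        hz _ _ fun hm' => by
          obtain ⟨_, _, _, _, _, _, _, _, _, e4⟩ := inv_f hm'
          rcases e4 with e4 | e4
          · exact hk e4
          · exact hk' e4)
      rcases e3 with rfl | rfl
      · exact key.1
      · exact key.2
    · exact hz _ _ hm
  have he : ∀ c i l, w (.e c i, l) = 0 := by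
    intro c i l
    by_cases hm : (Pt.e c i, l) ∈ I0 φ
    · obtain ⟨hc, e3⟩ := inv_e hm
      have hA : cA φ τ (.lam c 0) ≠ cA φ τ (.lam c 3) := by
        simp only [cA]
        intro h
        exact sl_ne (hsat c hc) (neg_injective h)
      have key := elimP h0 (h1 (.e c i)) (h2 (.e c i)) hA (fun k hk hk' =>
        hz _ _ fun hm' => by
          rcases (inv_e hm').2 with e4 | e4
          · exact hk e4
          · exact hk' e4)
      rcases e3 with rfl | rfl
      · exact key.1
      · exact key.2
    · exact hz _ _ hm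
  have hd : ∀ o i p, w (p, .d o i) = 0 := by
    intro o i
    have hx : cx φ τ (.r o) ≠ cx φ τ (.t o) := by
      simp only [cx]
      by_cases ht : tr φ τ o
      · rw [if_pos ht, if_pos ht]
        norm_num
      · rw [if_neg ht, if_neg ht]
        norm_num
    have hk : ∀ k, k ≠ Pt.r o → k ≠ Pt.t o → w (k, .d o i) = 0 := by
      intro k h5 h6
      apply hz
      intro hm
      rcases k with o' | o' | o' | _ | _ | _
      · obtain ⟨q, hq, e1, e2⟩ := inv_r hm
        simp only [reduceCtorEq, Ln.d.injEq, false_or] at e2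
        obtain ⟨j, e2, _⟩ := e2
        exact h5 (by rw [e2])
      · obtain ⟨q, hq, e1, e2⟩ := inv_s hm
        simp at e2
      · obtain ⟨_, e2⟩ := inv_t hm
        simp only [reduceCtorEq, Ln.d.injEq, false_or] at e2
        obtain ⟨j, e2, _⟩ := e2
        exact h6 (by rw [e2])
      · have := (inv_e hm).2
        simp at this
      · obtain ⟨_, _, _, _, _, _, _, _, _, e4⟩ := inv_f hm
        simp at e4
      · exact inv_z hm
    have key := elimL h0 (h3 (.d o i)) (h4 (.d o i)) hx hk
    intro p
    by_cases e1 : p = .r o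
    · rw [e1]; exact key.1
    · by_cases e2 : p = .t o
      · rw [e2]; exact key.2
      · exact hk p e1 e2
  -- one occurrence
  have step : ∀ c k, (∀ l, w (.s (c, k + 1), l) = 0 ∧ w (.t (c, k + 1), l) = 0) →
      ∀ l, w (.r (c, k), l) = 0 ∧ w (.s (c, k), l) = 0 ∧ w (.t (c, k), l) = 0 := by
    intro c k ih
    by_cases hq : ∃ q ∈ occ φ, q.1 = (c, k)
    · obtain ⟨q, hq, hqo⟩ := hq
      -- zero elsewhere
      have zr : ∀ l, l ≠ .ell q.2.2 → l ≠ .kap (c, k) → w (.r (c, k), l) = 0 := by
        intro l h5 h6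
        by_cases hm : (Pt.r (c, k), l) ∈ I0 φ
        · obtain ⟨q', hq', e1, e2⟩ := inv_r hm
          rw [occ_inj hq' hq (by rw [e1, hqo])] at e2
          rcases e2 with e2 | e2 | ⟨i, e2⟩
          · exact absurd e2 h5
          · exact absurd e2 h6
          · rw [e2]
            exact hd _ _ _
        · exact hz _ _ hm
      have zs : ∀ l, l ≠ .ell q.2.2 → l ≠ .kap (c, k) → l ≠ .lam c k → l ≠ .lam c (k + 1) →
          w (.s (c, k), l) = 0 := by
        intro l h5 h6 h7 h8
        apply hz
        intro hm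
        obtain ⟨q', hq', e1, e2⟩ := inv_s hm
        rw [occ_inj hq' hq (by rw [e1, hqo])] at e2
        rcases e2 with e2 | e2 | e2 | e2
        · exact absurd e2 h5
        · exact absurd e2 h6
        · exact absurd e2 h7
        · exact absurd e2 h8
      have zt : ∀ l, l ≠ .lam c k → l ≠ .lam c (k + 1) → w (.t (c, k), l) = 0 := by
        intro l h7 h8
        by_cases hm : (Pt.t (c, k), l) ∈ I0 φ
        · obtain ⟨_, e2⟩ := inv_t hm
          rcases e2 with e2 | e2 | ⟨i, e2⟩
          · exact absurd e2 h7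
          · exact absurd e2 h8
          · rw [e2]
            exact hd _ _ _
        · exact hz _ _ hm
      have zk : ∀ p, p ≠ Pt.r (c, k) → p ≠ Pt.s (c, k) → w (p, .kap (c, k)) = 0 := by
        intro p h5 h6
        by_cases hm : (p, Ln.kap (c, k)) ∈ I0 φ
        · rcases p with o' | o' | o' | _ | _ | _
          · obtain ⟨q, hq, e1, e2⟩ := inv_r hm
            simp only [reduceCtorEq, Ln.kap.injEq, false_or, exists_false, or_false] at e2
            exact absurd (by rw [e2]) h5
          · obtain ⟨q, hq, e1, e2⟩ := inv_s hm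
            simp only [reduceCtorEq, Ln.kap.injEq, false_or, or_false] at e2
            exact absurd (by rw [e2]) h6
          · obtain ⟨_, e2⟩ := inv_t hm
            simp at e2
          · have := (inv_e hm).2
            simp at this
          · exact hf _ _ _ _
          · exact absurd hm inv_z
        · exact hz _ _ hm
      have zl : ∀ p, p ≠ Pt.s (c, k) → p ≠ Pt.t (c, k) → w (p, .lam c (k + 1)) = 0 := by
        intro p h5 h6
        by_cases hm : (p, Ln.lam c (k + 1)) ∈ I0 φ
        · rcases p with o' | o' | o' | _ | _ | _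
          · obtain ⟨q, hq, e1, e2⟩ := inv_r hm
            simp at e2
          · obtain ⟨q, hq, e1, e2⟩ := inv_s hm
            simp only [reduceCtorEq, Ln.lam.injEq, false_or] at e2
            rcases e2 with ⟨e2, e3⟩ | ⟨e2, e3⟩
            · have : o' = (c, k + 1) := Prod.ext e2.symm e3.symm
              rw [this]
              exact (ih _).1
            · have : o' = (c, k) := Prod.ext e2.symm (by simpa using e3.symm)
              exact absurd (by rw [this]) h5
          · obtain ⟨_, e2⟩ := inv_t hm
            simp only [reduceCtorEq, Ln.lam.injEq, exists_false, or_false] at e2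
            rcases e2 with ⟨e2, e3⟩ | ⟨e2, e3⟩
            · have : o' = (c, k + 1) := Prod.ext e2.symm e3.symm
              rw [this]
              exact (ih _).2
            · have : o' = (c, k) := Prod.ext e2.symm (by simpa using e3.symm)
              exact absurd (by rw [this]) h6
          · exact he _ _ _
          · obtain ⟨_, _, _, _, _, _, _, _, _, e4⟩ := inv_f hm
            simp at e4
          · exact absurd hm inv_z
        · exact hz _ _ hm
      have hAs : cA φ τ (.ell q.2.2) ≠ cA φ τ (.lam c k) := by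
        simp only [cA]
        have := sl_pos (φ := φ) (τ := τ) c k
        intro h
        linarith
      by_cases ht : tr φ τ (c, k)
      · -- true literal
        have a1 : w (.r (c, k), .kap (c, k)) = 0 ∧ w (.s (c, k), .kap (c, k)) = 0 :=
          elimL h0 (h3 _) (h4 _) (by simp [cx, ht]) zk
        have a2 : w (.r (c, k), .ell q.2.2) = 0 := by
          refine elimP1 h0 (h1 _) fun l hl => ?_
          by_cases hl' : l = .kap (c, k)
          · rw [hl']; exact a1.1
          · exact zr l hl hl'
        have a3 : w (.t (c, k), .lam c k) = 0 ∧ w (.t (c, k), .lam c (k + 1)) = 0 :=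
          elimP h0 (h1 _) (h2 _) (by simp [cA, sl_succ_true ht]) zt
        have a4 : w (.s (c, k), .lam c (k + 1)) = 0 := by
          refine elimL1 h0 (h3 _) fun p hp => ?_
          by_cases hp' : p = .t (c, k)
          · rw [hp']; exact a3.2
          · exact zl p hp hp'
        have a5 : w (.s (c, k), .ell q.2.2) = 0 ∧ w (.s (c, k), .lam c k) = 0 := by
          refine elimP h0 (h1 _) (h2 _) hAs fun l h5 h6 => ?_
          by_cases h7 : l = .kap (c, k)
          · rw [h7]; exact a1.2
          · by_cases h8 : l = .lam c (k + 1)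
            · rw [h8]; exact a4
            · exact zs l h5 h7 h6 h8
        intro l
        refine ⟨?_, ?_, ?_⟩
        · by_cases e1 : l = .ell q.2.2
          · rw [e1]; exact a2
          · by_cases e2 : l = .kap (c, k)
            · rw [e2]; exact a1.1
            · exact zr l e1 e2
        · by_cases e1 : l = .ell q.2.2
          · rw [e1]; exact a5.1
          · by_cases e2 : l = .kap (c, k)
            · rw [e2]; exact a1.2
            · by_cases e3 : l = .lam c k
              · rw [e3]; exact a5.2
              · by_cases e4 : l = .lam c (k + 1)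
                · rw [e4]; exact a4
                · exact zs l e1 e2 e3 e4
        · by_cases e3 : l = .lam c k
          · rw [e3]; exact a3.1
          · by_cases e4 : l = .lam c (k + 1)
            · rw [e4]; exact a3.2
            · exact zt l e3 e4
      · -- false literal
        have a1 : w (.s (c, k), .lam c (k + 1)) = 0 ∧ w (.t (c, k), .lam c (k + 1)) = 0 :=
          elimL h0 (h3 _) (h4 _) (by simp [cx, ht]) zl
        have a2 : w (.t (c, k), .lam c k) = 0 := by
          refine elimP1 h0 (h1 _) fun l hl => ?_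
          by_cases hl' : l = .lam c (k + 1)
          · rw [hl']; exact a1.2
          · exact zt l hl hl'
        have a3 : w (.r (c, k), .ell q.2.2) = 0 ∧ w (.r (c, k), .kap (c, k)) = 0 :=
          elimP h0 (h1 _) (h2 _) (by simp [cA, ht]) zr
        have a4 : w (.s (c, k), .kap (c, k)) = 0 := by
          refine elimL1 h0 (h3 _) fun p hp => ?_
          by_cases hp' : p = .r (c, k)
          · rw [hp']; exact a3.2
          · exact zk p hp' hp
        have a5 : w (.s (c, k), .ell q.2.2) = 0 ∧ w (.s (c, k), .lam c k) = 0 := by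
          refine elimP h0 (h1 _) (h2 _) hAs fun l h5 h6 => ?_
          by_cases h7 : l = .kap (c, k)
          · rw [h7]; exact a4
          · by_cases h8 : l = .lam c (k + 1)
            · rw [h8]; exact a1.1
            · exact zs l h5 h7 h6 h8
        intro l
        refine ⟨?_, ?_, ?_⟩
        · by_cases e1 : l = .ell q.2.2
          · rw [e1]; exact a3.1
          · by_cases e2 : l = .kap (c, k)
            · rw [e2]; exact a3.2
            · exact zr l e1 e2
        · by_cases e1 : l = .ell q.2.2
          · rw [e1]; exact a5.1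
          · by_cases e2 : l = .kap (c, k)
            · rw [e2]; exact a4
            · by_cases e3 : l = .lam c k
              · rw [e3]; exact a5.2
              · by_cases e4 : l = .lam c (k + 1)
                · rw [e4]; exact a1.1
                · exact zs l e1 e2 e3 e4
        · by_cases e3 : l = .lam c k
          · rw [e3]; exact a2
          · by_cases e4 : l = .lam c (k + 1)
            · rw [e4]; exact a1.2
            · exact zt l e3 e4
    · intro l
      refine ⟨hz _ _ fun hm => ?_, hz _ _ fun hm => ?_, hz _ _ fun hm => ?_⟩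
      · obtain ⟨q, hq1, hq2, _⟩ := inv_r hm
        exact hq ⟨q, hq1, hq2⟩
      · obtain ⟨q, hq1, hq2, _⟩ := inv_s hm
        exact hq ⟨q, hq1, hq2⟩
      · obtain ⟨q, hq1, hq2⟩ := (inv_t hm).1
        exact hq ⟨q, hq1, hq2⟩
  -- all occurrences
  have hall : ∀ n c k, 3 ≤ k + n →
      ∀ l, w (.r (c, k), l) = 0 ∧ w (.s (c, k), l) = 0 ∧ w (.t (c, k), l) = 0 := by
    intro n
    induction n with
    | zero =>
      intro c k hk l
      refine ⟨hz _ _ fun hm => ?_, hz _ _ fun hm => ?_, hz _ _ fun hm => ?_⟩
      · obtain ⟨q, hq1, hq2, _⟩ := inv_r hm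
        have := occ_lt hq1
        rw [hq2] at this
        simp only at this
        omega
      · obtain ⟨q, hq1, hq2, _⟩ := inv_s hm
        have := occ_lt hq1
        rw [hq2] at this
        simp only at this
        omega
      · obtain ⟨q, hq1, hq2⟩ := (inv_t hm).1
        have := occ_lt hq1
        rw [hq2] at this
        simp only at this
        omega
    | succ n ih =>
      intro c k hk
      exact step c k fun l => ⟨(ih c (k + 1) (by omega) l).2.1, (ih c (k + 1) (by omega) l).2.2⟩
  rintro ⟨p, l⟩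
  rcases p with ⟨c, k⟩ | ⟨c, k⟩ | ⟨c, k⟩ | _ | _ | _
  · exact (hall 3 c k (by omega) l).1
  · exact (hall 3 c k (by omega) l).2.1
  · exact (hall 3 c k (by omega) l).2.2
  · exact he _ _ _
  · exact hf _ _ _ _
  · exact hz _ _ inv_z

end Pool.Agent.H657R2.Inc
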